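import Mathlib

set_option autoImplicit false

namespace Pool.Agent.Results.MP_98aad6_an.FriEmpty

open scoped Topology
open Filter Set

section defs

variable {X : Type} [AddCommGroup X] [Module ℝ X]

/-- `F` is a face of `C` -/
def IsFace (C F : Set X) : Prop :=
  Convex ℝ F ∧ F ⊆ C ∧ ∀ x ∈ F, ∀ y ∈ C, ∀ z ∈ C, x ∈ openSegment ℝ y z → y ∈ F ∧ z ∈ F

/-- the smallest face of `C` containing `x` -/
def Fmin (x : X) (C : Set X) : Set X := ⋂₀ {F | IsFace C F ∧ x ∈ F}

/-- the conic hull of `C - x` -/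
def cone (C : Set X) (x : X) : Set X := {v | ∃ y ∈ C, ∃ a : ℝ, 0 ≤ a ∧ v = a • (y - x)}

/-- the face relative interior -/
def fri [TopologicalSpace X] (C : Set X) : Set X := {x | x ∈ C ∧ C ⊆ closure (Fmin x C)}

/-- the quasi-relative interior -/
def qri [TopologicalSpace X] (C : Set X) : Set X :=
  {x | x ∈ C ∧ ∃ S : Submodule ℝ X, (S : Set X) = closure (cone C x)}

lemma cone_add {C : Set X} (hC : Convex ℝ C) {x v w : X} (hv : v ∈ cone C x)
    (hw : w ∈ cone C x) : v + w ∈ cone C x := by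
  obtain ⟨y, hy, a, ha, rfl⟩ := hv
  obtain ⟨z, hz, b, hb, rfl⟩ := hw
  rcases (add_nonneg ha hb).eq_or_lt with h | h
  · have h1 : b = 0 := by linarith
    exact ⟨y, hy, a, ha, by rw [h1, zero_smul, add_zero]⟩
  · refine ⟨_, hC hy hz (div_nonneg ha h.le) (div_nonneg hb h.le)
      (by rw [← add_div, div_self h.ne']), a + b, h.le, ?_⟩
    rw [smul_sub (a + b), smul_add, smul_smul, smul_smul, mul_div_cancel₀ _ h.ne',
      mul_div_cancel₀ _ h.ne']
    module

end defs

abbrev H : Type := lp (fun _ : ℝ × ℕ => ℝ) 2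

def C : Set H := {x | ∀ (γ : ℝ) (k : ℕ),
  (1 / 2) ^ (k + 1) * x (γ, 0) - (1 / 4) ^ k ≤ x (γ, k + 1) ∧ -(1 / 4) ^ k ≤ x (γ, k + 1)}

lemma cont (i : ℝ × ℕ) : Continuous fun x : H => x i :=
  (lp.evalCLM ℝ (fun _ : ℝ × ℕ => ℝ) 2 i).continuous

lemma comb (a b : ℝ) (x y : H) (i : ℝ × ℕ) : (a • x + b • y) i = a * x i + b * y i := rfl

lemma convex_C : Convex ℝ C := fun x hx y hy a b ha hb hab γ k => by
  rw [comb, comb]
  obtain rfl : b = 1 - a := by linarith
  constructor
  · nlinarith [mul_le_mul_of_nonneg_left (hx γ k).1 ha, mul_le_mul_of_nonneg_left (hy γ k).1 hb]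
  · nlinarith [mul_le_mul_of_nonneg_left (hx γ k).2 ha, mul_le_mul_of_nonneg_left (hy γ k).2 hb]

lemma closed_C : IsClosed C := by
  simp only [C, ofPred_forall, ofPred_and]
  exact isClosed_iInter fun γ => isClosed_iInter fun k =>
    (isClosed_le ((continuous_const.mul (cont (γ, 0))).sub continuous_const)
      (cont (γ, k + 1))).inter (isClosed_le continuous_const (cont (γ, k + 1)))

noncomputable def g (γ : ℝ) : H :=
  ⟨fun i => if i.1 = γ then (1 / 2) ^ i.2 else 0, memℓp_gen (by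
    have h1 : Function.Injective fun k : ℕ => (γ, k) := Prod.mk_right_injective γ
    refine (h1.summable_iff fun i hi => ?_).1 ?_
    · rw [if_neg fun h => hi ⟨i.2, Prod.ext h.symm rfl⟩]
      simp
    · refine (summable_geometric_of_lt_one (r := 1 / 4) (by norm_num) (by norm_num)).congr
        fun k => ?_
      simp only [Function.comp_apply, if_true, ENNReal.toReal_ofNat, Real.rpow_ofNat,
        Real.norm_eq_abs, sq_abs]
      rw [← pow_mul, mul_comm, pow_mul]
      norm_num)⟩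

lemma g_app (γ : ℝ) (i : ℝ × ℕ) : g γ i = if i.1 = γ then (1 / 2) ^ i.2 else 0 := rfl

lemma g_mem (γ : ℝ) : g γ ∈ C := fun γ' k => by
  have h1 : (0 : ℝ) < (1 / 4) ^ k := by positivity
  have h2 : (0 : ℝ) < (1 / 2) ^ (k + 1) := by positivity
  rw [g_app, g_app]
  dsimp only
  split_ifs
  · rw [pow_zero]
    constructor <;> linarith
  · constructor <;> linarith

lemma dense_cone : closure (cone C 0) = univ := by
  classical
  have h0 : (0 : H) ∈ C := fun γ k => by simp
  have hadd : ∀ v ∈ closure (cone C 0), ∀ w ∈ closure (cone C 0), v + w ∈ closure (cone C 0) :=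
    fun v hv w hw => map_mem_closure₂ continuous_add hv hw fun _ h _ h' => cone_add convex_C h h'
  have hsum : ∀ x : H, (∀ i, lp.single 2 i (x i) ∈ closure (cone C 0)) → x ∈ closure (cone C 0) :=
    fun x hx => isClosed_closure.mem_of_tendsto (lp.hasSum_single (by simp) x)
      (Eventually.of_forall fun s => Finset.sum_induction _ (· ∈ closure (cone C 0))
        (fun v w hv hw => hadd v hv w hw) (subset_closure ⟨0, h0, 0, le_rfl, by simp⟩)
        fun i _ => hx i)
  have h1 : ∀ (γ : ℝ) (k : ℕ) (c : ℝ), lp.single 2 (γ, k + 1) c ∈ closure (cone C 0) := by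
    intro γ k c
    have hp : 0 < (|c| + 1) * 4 ^ k := by positivity
    refine subset_closure ⟨lp.single 2 (γ, k + 1) (c / ((|c| + 1) * 4 ^ k)), fun γ' k' => ?_, _,
      hp.le, ?_⟩
    · rw [lp.single_apply_ne _ _ _ (j := (γ', 0)) (by simp), mul_zero, zero_sub, and_self]
      by_cases h : (γ', k' + 1) = (γ, k + 1)
      · obtain rfl : k' = k := by simpa using (Prod.ext_iff.1 h).2
        rw [h, lp.single_apply_self, le_div_iff₀ hp]
        have h2 : (1 / 4 : ℝ) ^ k' * 4 ^ k' = 1 := by rw [← mul_pow]; norm_num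
        rw [neg_mul, mul_left_comm, h2]
        linarith [neg_abs_le c]
      · rw [lp.single_apply_ne _ _ _ h]
        simp
    · rw [sub_zero, ← lp.single_smul, smul_eq_mul, mul_div_cancel₀ _ hp.ne']
  have h2 : ∀ (γ : ℝ) (c : ℝ), c ≤ 0 → lp.single 2 (γ, 0) c ∈ closure (cone C 0) := by
    intro γ c hc
    refine subset_closure ⟨lp.single 2 (γ, 0) c, fun γ' k' => ?_, 1, zero_le_one, by simp⟩
    have h3 : (0 : ℝ) < (1 / 4) ^ k' := by positivity
    have h4 : (0 : ℝ) < (1 / 2) ^ (k' + 1) := by positivity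
    rw [lp.single_apply_ne _ _ _ (j := (γ', k' + 1)) (by simp)]
    refine ⟨?_, by linarith⟩
    by_cases h : (γ', 0) = (γ, 0)
    · rw [h, lp.single_apply_self]
      nlinarith
    · rw [lp.single_apply_ne _ _ _ h]
      linarith
  refine eq_univ_of_forall fun x => hsum x ?_
  rintro ⟨γ, _ | k⟩
  · rcases le_total (x (γ, 0)) 0 with h | h
    · exact h2 _ _ h
    · have h3 := hadd _ (subset_closure ⟨g γ, g_mem γ, _, h, rfl⟩)
        (lp.single 2 (γ, 0) (x (γ, 0)) - x (γ, 0) • (g γ - 0)) (hsum _ (by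
          rintro ⟨γ', _ | k⟩
          · refine h2 _ _ ?_
            rw [sub_zero]
            change (lp.single 2 (γ, 0) (x (γ, 0)) : H) (γ', 0) - x (γ, 0) * g γ (γ', 0) ≤ 0
            rw [g_app]
            by_cases h4 : γ' = γ
            · rw [h4, lp.single_apply_self]
              simp
            · rw [lp.single_apply_ne _ _ _ (by simpa using h4)]
              simp [h4]
          · exact h1 _ _ _))
      rwa [add_sub_cancel] at h3
  · exact h1 _ _ _

lemma fri_empty : fri C = ∅ := by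
  refine eq_empty_of_forall_notMem fun x hx => ?_
  obtain ⟨γ, hγ⟩ : ∃ γ : ℝ, ∀ k, x (γ, k) = 0 := by
    by_contra! h
    have h1 := ((lp.memℓp x).summable (by simp)).countable_support.image Prod.fst
    refine Cardinal.not_countable_real (h1.mono fun γ _ => ?_)
    obtain ⟨k, hk⟩ := h γ
    exact ⟨(γ, k), by simpa using hk, rfl⟩
  have hl : Tendsto (fun k : ℕ => 2 * (1 / 2 : ℝ) ^ k) atTop (𝓝 0) := by
    simpa using (tendsto_pow_atTop_nhds_zero_of_lt_one (r := (1 / 2 : ℝ)) (by norm_num)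
      (by norm_num)).const_mul 2
  have e1 : ∀ k : ℕ, (2 : ℝ) ^ (k + 1) * (1 / 4) ^ k = 2 * (1 / 2) ^ k := fun k => by
    rw [pow_succ, mul_right_comm, ← mul_pow, mul_comm]; norm_num
  have e2 : ∀ k : ℕ, (2 : ℝ) ^ (k + 1) * (1 / 2) ^ (k + 1) = 1 := fun k => by
    rw [← mul_pow]; norm_num
  have low : ∀ y ∈ C, ∀ k : ℕ, -(2 * (1 / 2 : ℝ) ^ k) ≤ 2 ^ (k + 1) * y (γ, k + 1) ∧
      y (γ, 0) - 2 * (1 / 2 : ℝ) ^ k ≤ 2 ^ (k + 1) * y (γ, k + 1) := fun y hy k => by
    have hp : (0 : ℝ) ≤ 2 ^ (k + 1) := by positivity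
    have k1 := mul_le_mul_of_nonneg_left (hy γ k).1 hp
    have k2 := mul_le_mul_of_nonneg_left (hy γ k).2 hp
    rw [mul_sub, ← mul_assoc, e1, e2, one_mul] at k1
    rw [mul_neg, e1] at k2
    exact ⟨k2, k1⟩
  let G : Set H := {y | y ∈ C ∧ Tendsto (fun k : ℕ => 2 ^ (k + 1) * y (γ, k + 1)) atTop (𝓝 0)}
  have half : ∀ y ∈ C, ∀ z ∈ C, ∀ a b : ℝ, 0 < a → 0 < b → a • y + b • z ∈ G → y ∈ G := by
    intro y hy z hz a b ha hb h
    refine ⟨hy, tendsto_of_tendsto_of_tendsto_of_le_of_le (by simpa using hl.neg)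
      (by simpa using (h.2.add (hl.const_mul b)).const_mul a⁻¹) (fun k => (low y hy k).1)
      fun k => ?_⟩
    dsimp only
    rw [le_inv_mul_iff₀ ha]
    have := mul_le_mul_of_nonneg_left (low z hz k).1 hb.le
    simp only [one_div, inv_pow] at this
    linarith
  have hG : IsFace C G := by
    refine ⟨fun y hy z hz a b ha hb hab => ⟨convex_C hy.1 hz.1 ha hb hab, ?_⟩, fun y hy => hy.1, ?_⟩
    · have := (hy.2.const_mul a).add (hz.2.const_mul b)
      rw [mul_zero, mul_zero, add_zero] at this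
      refine this.congr fun k => ?_
      rw [comb]; ring
    · rintro _ hw y hy z hz ⟨a, b, ha, hb, -, rfl⟩
      exact ⟨half y hy z hz a b ha hb hw, half z hz y hy b a hb ha (by rwa [add_comm])⟩
  have h1 : Fmin x C ⊆ {y : H | y (γ, 0) ≤ 0} := fun y hy => by
    have h2 : y ∈ G := hy G ⟨hG, hx.1, by simp [hγ]⟩
    have h3 := hl.const_sub (y (γ, 0))
    rw [sub_zero] at h3
    exact le_of_tendsto_of_tendsto' h3 h2.2 fun k => (low y h2.1 k).2
  have h2 := closure_minimal h1 (isClosed_le (cont _) continuous_const) (hx.2 (g_mem γ))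
  change g γ (γ, 0) ≤ 0 at h2
  rw [g_app] at h2
  norm_num at h2

/-- A closed convex set in a Hilbert space with nonempty quasi-relative interior and empty face
relative interior. -/
theorem result : ∃ (X : Type) (_ : NormedAddCommGroup X) (_ : InnerProductSpace ℝ X)
    (_ : CompleteSpace X) (C : Set X),
    Convex ℝ C ∧ IsClosed C ∧ (qri C).Nonempty ∧ fri C = ∅ :=
  ⟨H, inferInstance, inferInstance, inferInstance, C, convex_C, closed_C,
    ⟨0, fun γ k => by simp, ⊤, dense_cone.symm⟩, fri_empty⟩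

end Pool.Agent.Results.MP_98aad6_an.FriEmpty
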